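import Pool.Agent.H25.Fold

set_option autoImplicit false

namespace Pool.Agent.Results.MP_d5e15b_co.Cex

open Pool.Agent.H25.Fold

/-- A finite connected bigraph whose fold group is transitive on the left vertices but which is
not left-cut-percolating. -/
theorem result : ∃ (A B : Type) (_ : Finite A) (_ : Finite B) (E : A → B → Prop),
    Nonempty A ∧ (bg E).Connected ∧
    (∀ a b : A, ∃ g ∈ foldGroup E, g (Sum.inl a) = Sum.inl b) ∧ ¬ LeftCutPerc E :=
  ⟨AA, BB, inferInstance, inferInstance, EE, inferInstance, conn, trans, not_perc⟩

end Pool.Agent.Results.MP_d5e15b_co.Cex
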